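import Pool.Agent.PDT.Stmts2

/-!
# PDT, module FNL: assembly of the NP-hardness of planar degree sequences
-/

set_option autoImplicit false

namespace Pool.Agent.PDT.H76

open Pool.Agent.PDN Pool.Agent.PDM Pool.Agent.PDT Pool.Agent.Common_CookLevin
  Pool.Agent.Helper32_HCK

/-- The decision problem: is the given finite list of natural numbers the list of the degrees of a
planar graph with `n ≥ 4` vertices and `3 n - 6` edges (a triangulation of the sphere)? -/
def triangulationProblem : DecisionProblem where
  Inst := List ℕ
  Alph := Bool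
  alphFintype := inferInstance
  enc := encSeq
  enc_injective := encSeq_injective
  Yes := fun l => 4 ≤ l.length ∧ l.sum + 12 = 6 * l.length ∧ Realizable (l : Multiset ℕ)

theorem encodeCNF_cons (C : List (ℕ × Bool)) (F : CNF) :
    encodeCNF (C :: F) = (CNFLetter.clause :: C.flatMap fun l =>
      (if l.2 then .pos else .neg) :: List.replicate l.1 .tick) ++ encodeCNF F := rfl

theorem length_le_encode (F : CNF) : F.length ≤ (encodeCNF F).length := by
  induction F with
  | nil => exact Nat.zero_le _
  | cons C F ih =>
    rw [encodeCNF_cons, List.length_append, List.length_cons, List.length_cons]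
    omega

theorem index_le_clause (C : List (ℕ × Bool)) (l : ℕ × Bool) (hl : l ∈ C) :
    l.1 ≤ (C.flatMap fun l => (if l.2 then CNFLetter.pos else .neg) ::
      List.replicate l.1 .tick).length := by
  induction C with
  | nil => exact absurd hl (List.not_mem_nil)
  | cons a C ih =>
    rw [List.flatMap_cons, List.length_append, List.length_cons, List.length_replicate]
    rcases List.mem_cons.1 hl with rfl | h
    · omega
    · have := ih h
      omega

theorem index_le_encode (F : CNF) : ∀ C ∈ F, ∀ l ∈ C, l.1 ≤ (encodeCNF F).length := by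
  induction F with
  | nil => exact fun C hC => absurd hC (List.not_mem_nil)
  | cons C F ih =>
    intro C' hC' l hl
    rw [encodeCNF_cons, List.length_append, List.length_cons]
    rcases List.mem_cons.1 hC' with rfl | h
    · have := index_le_clause C' l hl
      omega
    · have := ih C' h l hl
      omega

/-- the correctness of the reduction -/
theorem seqF_iff (okt : OktStmt) (sou : SouStmt) (com : ComStmt) (mat : MatStmt) (lst : LstStmt)
    (ne : Ne3Stmt) (su : Su3Stmt) (F : CNF) :
    (∃ v : ℕ → Bool, ∀ C ∈ F, ∃ l ∈ C, v l.1 = l.2) ↔ Realizable (seqF F : Multiset ℕ) := by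
  unfold seqF
  obtain ⟨p, hp⟩ : ∃ p, p = (encodeCNF F).length + 1 := ⟨_, rfl⟩
  rw [← hp]
  have hok := okt F p
  have h1 : 1 ≤ p := by omega
  have h2 : F.length ≤ p := by
    have := length_le_encode F
    omega
  have h3 : ∀ C ∈ F, ∀ l ∈ C, l.1 < p := fun C hC l hl => by
    have := index_le_encode F C hC l hl
    omega
  rw [lst _ _ hok]
  constructor
  · intro h
    exact su _ _ ((mat _ _ hok).1 (com F p h1 h3 h))
  · intro h
    exact sou F p h2 ((mat _ _ hok).2 (ne _ _ h))

/-- FNL -/
theorem fnl : FnlStmt := by
  intro okt sou com mat lst tim ne su L hL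
  exact hard_of_sat (Q := planarProblem)
    ⟨seqF, tim, fun F => seqF_iff okt sou com mat lst ne su F⟩ L hL

theorem four_le_length (t : ℕ) (L : List (ℕ × ℕ × ℕ)) : 4 ≤ (seqL t L).length := by
  unfold seqL
  simp only [List.length_append, List.length_cons, List.length_nil]
  omega

/-- FNL for triangulations -/
theorem fnl_tri (okt : OktStmt) (sou : SouStmt) (com : ComStmt) (mat : MatStmt) (lst : LstStmt)
    (tim : TimStmt) (ne : Ne3Stmt) (su : Su3Stmt) (siz : SizStmt) :
    NPHard triangulationProblem := by
  intro L hL
  refine hard_of_sat (Q := triangulationProblem) ⟨seqF, tim, fun F => ?_⟩ L hL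
  have h1 := seqF_iff okt sou com mat lst ne su F
  have h2 : 4 ≤ (seqF F).length := four_le_length _ _
  have h3 : (seqF F).sum + 12 = 6 * (seqF F).length := by
    unfold seqF
    have hok := okt F ((encodeCNF F).length + 1)
    have h4 := (siz _ (toIns (2 * (((encodeCNF F).length + 1) * ((encodeCNF F).length + 1)))
      (trips F ((encodeCNF F).length + 1)))).1
    rw [← lst _ _ hok, Multiset.sum_coe, Multiset.coe_card] at h4
    exact h4
  exact ⟨fun h => ⟨h2, h3, h1.1 h⟩, fun h => h1.2 h.2.2⟩

end Pool.Agent.PDT.H76
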